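import Pool.Agent.H95.Lya

set_option autoImplicit false

open Pool.Agent.H95.Lya

theorem Pool.Agent.Results.MP_4e5d1f_mp.Contract.result :
    ∀ (d m : ℕ) (L : Fin m → Op d), Algebra.adjoin ℂ (Set.range L) = ⊤ →
      ∃ K γ : ℝ, 0 < K ∧ 0 < γ ∧ ∀ H E, IsDrive H → IsProp H L E →
        ∀ ρ σ, IsState ρ → IsState σ → ∀ s t, 0 ≤ s → s ≤ t →
          tn (E t s ρ - E t s σ) ≤ K * Real.exp (-γ * (t - s)) * tn (ρ - σ) :=
  fun _ _ _ h => main h
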